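import Pool.Agent.Helper29.E3.St1
import Pool.Agent.Helper49.PC.StN
import Pool.Agent.Helper48.BK.M_Vau

/-! # Project E3, module MBL: the bilinear part with two parameters -/

set_option autoImplicit false

namespace Pool.Agent.Helper61.E3

open Finset ArithmeticFunction
open Pool.Agent.Helper29.E3 Pool.Agent.Helper49.PC
open Pool.Agent.Helper48.BK (ex th lz Vz Pz gs nd Apx AdN Sol thd)

/-- the truncated exponential in a residue class -/
private noncomputable def Gb (y D l : ℕ) (t : ℝ) (n : ℕ) : ℂ :=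
  if n ≤ y ∧ n ≡ l [MOD D] then ex (n * t) else 0

private theorem Gb0 (y D l : ℕ) (t : ℝ) (n : ℕ) (hn : y < n) : Gb y D l t n = 0 := by
  unfold Gb
  rw [if_neg (by omega)]

/-- inner sum -/
private theorem restrict_MBL (y D l : ℕ) (t : ℝ) (f : ℕ → ℝ) (c : ℝ) (a : ℕ) (ha : 1 ≤ a) :
    ∑ b ∈ Ioc 0 y, ((c : ℝ) : ℂ) * ((f b : ℝ) : ℂ) * Gb y D l t (a * b) =
      ∑ b ∈ Ioc 0 (y / a),
        if a * b ≡ l [MOD D] then ((c * f b : ℝ) : ℂ) * ex (a * b * t) else 0 := by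
  have hs : (Ioc 0 y).filter (fun b => a * b ≤ y) = Ioc 0 (y / a) := by
    ext b
    simp only [mem_filter, mem_Ioc]
    constructor
    · rintro ⟨⟨h1, _⟩, h3⟩
      exact ⟨h1, (Nat.le_div_iff_mul_le ha).2 (by rwa [mul_comm])⟩
    · rintro ⟨h1, h2⟩
      have h3 := (Nat.le_div_iff_mul_le ha).1 h2
      exact ⟨⟨h1, h2.trans (Nat.div_le_self _ _)⟩, by rwa [mul_comm]⟩
  rw [← hs, sum_filter]
  refine Finset.sum_congr rfl fun b _ => ?_
  unfold Gb
  by_cases h : a * b ≤ y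
  · by_cases h2 : a * b ≡ l [MOD D]
    · rw [if_pos ⟨h, h2⟩, if_pos h, if_pos h2]
      push_cast
      ring
    · rw [if_neg (fun h3 => h2 h3.2), if_pos h, if_neg h2, mul_zero]
  · rw [if_neg (fun h3 => h h3.1), if_neg h, mul_zero]

/-- a dyadic block -/
private noncomputable def Pb (y D l : ℕ) (t : ℝ) (f g : ℕ → ℝ) (K K' : ℕ) : ℂ :=
  ∑ k ∈ Ioc K (2 * K), ∑ m ∈ Ioc K' (2 * K'), ((f k : ℝ) : ℂ) * ((g m : ℝ) : ℂ) *
    Gb y D l t (k * m)

private theorem Pb_eq (y D l : ℕ) (t : ℝ) (f g : ℕ → ℝ) (K K' : ℕ) :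
    Pb y D l t f g K K' = ∑ k ∈ Ioc K (2 * K), ∑ m ∈ Ioc 0 (y / k),
      if k * m ≡ l [MOD D] then
        ((f k * (if m ∈ Ioc K' (2 * K') then g m else 0) : ℝ) : ℂ) * ex (k * m * t) else 0 := by
  unfold Pb
  refine Finset.sum_congr rfl fun k hk => ?_
  have hk1 : 1 ≤ k := by have := (mem_Ioc.1 hk).1; omega
  have h1 : ∑ m ∈ Ioc K' (2 * K'), ((f k : ℝ) : ℂ) * ((g m : ℝ) : ℂ) * Gb y D l t (k * m) =
      ∑ m ∈ (Ioc K' (2 * K')).filter (fun m => k * m ≤ y),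
        if k * m ≡ l [MOD D] then ((f k * g m : ℝ) : ℂ) * ex (k * m * t) else 0 := by
    rw [Finset.sum_filter]
    refine Finset.sum_congr rfl fun m _ => ?_
    unfold Gb
    by_cases h : k * m ≤ y
    · by_cases h2 : k * m ≡ l [MOD D]
      · rw [if_pos ⟨h, h2⟩, if_pos h, if_pos h2]
        push_cast
        ring
      · rw [if_neg (fun h3 => h2 h3.2), if_pos h, if_neg h2, mul_zero]
    · rw [if_neg (fun h3 => h h3.1), if_neg h, mul_zero]
  have h2 : ∑ m ∈ Ioc 0 (y / k), (if k * m ≡ l [MOD D] then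
        ((f k * (if m ∈ Ioc K' (2 * K') then g m else 0) : ℝ) : ℂ) * ex (k * m * t) else 0) =
      ∑ m ∈ (Ioc 0 (y / k)).filter (fun m => m ∈ Ioc K' (2 * K')),
        if k * m ≡ l [MOD D] then ((f k * g m : ℝ) : ℂ) * ex (k * m * t) else 0 := by
    rw [Finset.sum_filter]
    refine Finset.sum_congr rfl fun m _ => ?_
    by_cases h : m ∈ Ioc K' (2 * K')
    · rw [if_pos h, if_pos h]
    · rw [if_neg h, if_neg h]
      simp
  rw [h1, h2]
  refine Finset.sum_congr ?_ fun _ _ => rfl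
  ext m
  simp only [mem_filter, mem_Ioc]
  constructor
  · rintro ⟨⟨h3, h4⟩, h5⟩
    exact ⟨⟨by omega, (Nat.le_div_iff_mul_le hk1).2 (by rwa [mul_comm])⟩, h3, h4⟩
  · rintro ⟨⟨h3, h4⟩, h5, h6⟩
    refine ⟨⟨h5, h6⟩, ?_⟩
    have := (Nat.le_div_iff_mul_le hk1).1 h4
    rwa [mul_comm] at this

/-- one block -/
private theorem block_MBL (C : ℝ) (hC : 0 < C)
    (hII : ∀ (M D v K y : ℕ) (h : ℤ) (θ : ℝ) (α β : ℕ → ℝ),
      1 ≤ M → 1 ≤ D → 1 ≤ K → y ≤ D * M → Apx θ h v →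
      D * ∑ l ∈ Un D, ‖∑ k ∈ Ioc K (2 * K), ∑ m ∈ Ioc 0 (y / k),
        if k * m ≡ l [MOD D] then ((α k * β m : ℝ) : ℂ) * ex (k * m * (θ / D)) else 0‖ ^ 2 ≤
      C * (∑ k ∈ Ioc K (2 * K), α k ^ 2) * (∑ m ∈ Ioc 0 (D * M / K), β m ^ 2) *
        ((D : ℝ) * K + (D : ℝ) * M / v + (D : ℝ) * M / K + (D : ℝ) * v) * (1 + Real.log v))
    (M D v U W y K K' : ℕ) (h : ℤ) (θ : ℝ) (hM : 3 ≤ M) (hD : 1 ≤ D) (hU : 1 ≤ U) (hW : 1 ≤ W)
    (hvM : v ≤ M) (hy : y ≤ D * M) (hθ : Apx θ h v) (f g : ℕ → ℝ) (A : ℝ) (hA : 0 ≤ A)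
    (hf : ∀ N ≤ 2 * (D * M), ∑ n ∈ Ioc 0 N, f n ^ 2 ≤ A * N)
    (hg : ∀ N ≤ 2 * (D * M), ∑ n ∈ Ioc 0 N, g n ^ 2 ≤ A * N)
    (hK : U ≤ K) (hKK : D * W ≤ K') :
    D * ∑ l ∈ Un D, ‖Pb y D l (θ / D) f g K K'‖ ^ 2 ≤
      4 * C * A ^ 2 * ((D : ℝ) * M) ^ 2 * (1 / v + 1 / U + 1 / W + v / M) *
        Real.log M := by
  have hL := Pool.Agent.Helper48.BK.log3_Vau hM
  have hv1 : 1 ≤ v := hθ.1
  have hvr : (1 : ℝ) ≤ v := by exact_mod_cast hv1
  have hUr : (1 : ℝ) ≤ U := by exact_mod_cast hU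
  have hWr : (1 : ℝ) ≤ W := by exact_mod_cast hW
  have hMr : (3 : ℝ) ≤ M := by exact_mod_cast hM
  have hDr : (1 : ℝ) ≤ D := by exact_mod_cast hD
  have hK1 : 1 ≤ K := hU.trans hK
  have hK'1 : 1 ≤ K' := (Nat.one_le_iff_ne_zero.2 (by positivity)).trans hKK
  have hKr : (1 : ℝ) ≤ K := by exact_mod_cast hK1
  have hM0 : (0 : ℝ) < M := by linarith
  have hD0 : (0 : ℝ) < D := by linarith
  have hW0 : (0 : ℝ) < W := by linarith
  by_cases hlt : K * K' ≤ D * M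
  · have h1 := hII M D v K y h θ f (fun m => if m ∈ Ioc K' (2 * K') then g m else 0)
      (by omega) hD hK1 hy hθ
    simp_rw [← Pb_eq] at h1
    refine h1.trans ?_
    have hKx : K ≤ D * M := (Nat.le_mul_of_pos_right K hK'1).trans hlt
    have hKW : K * W ≤ M := by
      have h2 : K * (D * W) ≤ D * M := (Nat.mul_le_mul_left K hKK).trans hlt
      have h3 : D * (K * W) ≤ D * M := by
        calc D * (K * W) = K * (D * W) := by ring
          _ ≤ D * M := h2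
      exact Nat.le_of_mul_le_mul_left h3 hD
    have a1 : ∑ k ∈ Ioc K (2 * K), f k ^ 2 ≤ A * (2 * K) := by
      have h2 := hf (2 * K) (by omega)
      push_cast at h2
      refine le_trans (Finset.sum_le_sum_of_subset_of_nonneg ?_ fun _ _ _ => sq_nonneg _) h2
      exact Finset.Ioc_subset_Ioc_left (Nat.zero_le _)
    have a2 : ∑ m ∈ Ioc 0 (D * M / K), (if m ∈ Ioc K' (2 * K') then g m else 0) ^ 2 ≤
        A * ((D : ℝ) * M / K) := by
      have h2 := hg (D * M / K) ((Nat.div_le_self _ _).trans (by omega))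
      have h3 : ((D * M / K : ℕ) : ℝ) ≤ (D : ℝ) * M / K := by
        refine (Nat.cast_div_le).trans ?_
        push_cast
        exact le_rfl
      calc ∑ m ∈ Ioc 0 (D * M / K), (if m ∈ Ioc K' (2 * K') then g m else 0) ^ 2
          ≤ ∑ m ∈ Ioc 0 (D * M / K), g m ^ 2 := by
            refine Finset.sum_le_sum fun m _ => ?_
            split_ifs
            · exact le_rfl
            · simp only [ne_eq, OfNat.ofNat_ne_zero, not_false_eq_true, zero_pow]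
              positivity
        _ ≤ A * ((D * M / K : ℕ) : ℝ) := h2
        _ ≤ A * ((D : ℝ) * M / K) := mul_le_mul_of_nonneg_left h3 hA
    have a3 : (D : ℝ) * K + (D : ℝ) * M / v + (D : ℝ) * M / K + (D : ℝ) * v ≤
        (D : ℝ) * M * (1 / v + 1 / U + 1 / W + v / M) := by
      have b1 : (K : ℝ) ≤ M / W := by
        rw [le_div_iff₀ hW0]
        exact_mod_cast hKW
      have b2 : (D : ℝ) * M / K ≤ D * M / U :=
        div_le_div_of_nonneg_left (by positivity) (by linarith) (by exact_mod_cast hK)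
      have b3 : (D : ℝ) * K ≤ D * (M / W) := mul_le_mul_of_nonneg_left b1 hD0.le
      have b4 : (D : ℝ) * M * (1 / v + 1 / U + 1 / W + v / M) =
          D * M / v + D * M / U + D * (M / W) + D * v := by
        field_simp
      rw [b4]
      linarith
    have a4 : 1 + Real.log v ≤ 2 * Real.log M := by
      have : Real.log v ≤ Real.log M :=
        Real.log_le_log (by linarith) (by exact_mod_cast hvM)
      linarith
    have hlv : 0 ≤ Real.log v := Real.log_natCast_nonneg v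
    have s1 : 0 ≤ ∑ k ∈ Ioc K (2 * K), f k ^ 2 := Finset.sum_nonneg fun _ _ => sq_nonneg _
    have s2 : 0 ≤ ∑ m ∈ Ioc 0 (D * M / K), (if m ∈ Ioc K' (2 * K') then g m else 0) ^ 2 :=
      Finset.sum_nonneg fun _ _ => sq_nonneg _
    calc C * (∑ k ∈ Ioc K (2 * K), f k ^ 2) *
          (∑ m ∈ Ioc 0 (D * M / K), (if m ∈ Ioc K' (2 * K') then g m else 0) ^ 2) *
          ((D : ℝ) * K + (D : ℝ) * M / v + (D : ℝ) * M / K + (D : ℝ) * v) * (1 + Real.log v)
        ≤ C * (A * (2 * K)) * (A * ((D : ℝ) * M / K)) *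
          ((D : ℝ) * M * (1 / v + 1 / U + 1 / W + v / M)) * (2 * Real.log M) := by
          gcongr
      _ = 4 * C * A ^ 2 * ((D : ℝ) * M) ^ 2 * (1 / v + 1 / U + 1 / W + v / M) *
        Real.log M := by
          field_simp
          ring
  · have h0 : ∀ l ∈ Un D, ‖Pb y D l (θ / D) f g K K'‖ ^ 2 = 0 := by
      intro l _
      have : Pb y D l (θ / D) f g K K' = 0 := by
        unfold Pb
        refine Finset.sum_eq_zero fun k hk => Finset.sum_eq_zero fun m hm => ?_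
        have hk1 := (mem_Ioc.1 hk).1
        have hm1 := (mem_Ioc.1 hm).1
        rw [Gb0, mul_zero]
        have : K * K' ≤ k * m := Nat.mul_le_mul hk1.le hm1.le
        omega
      rw [this]
      simp
    rw [Finset.sum_eq_zero h0, mul_zero]
    positivity

/-- the bilinear part is a sum of blocks -/
private theorem dec_MBL (y D l U V N : ℕ) (t : ℝ) (f g : ℕ → ℝ) (hU : 1 ≤ U) (hV : 1 ≤ V)
    (hf : ∀ n ≤ U, f n = 0) (hg : ∀ n ≤ V, g n = 0) (hN : y < 2 ^ N) :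
    ∑ a ∈ Ioc 0 y, ∑ b ∈ Ioc 0 y, ((f a : ℝ) : ℂ) * ((g b : ℝ) : ℂ) * Gb y D l t (a * b) =
      ∑ p ∈ range N ×ˢ range N, Pb y D l t f g (U * 2 ^ p.1) (V * 2 ^ p.2) := by
  have key : ∀ U : ℕ, 1 ≤ U → ∀ F : ℕ → ℂ, (∀ n ≤ U, F n = 0) → (∀ n, y < n → F n = 0) →
      ∑ a ∈ Ioc 0 y, F a = ∑ i ∈ range N, ∑ u ∈ Ioc (U * 2 ^ i) (2 * (U * 2 ^ i)), F u := by
    intro U hU F h1 h2
    have hyN : y ≤ U * 2 ^ N := by
      have : 2 ^ N ≤ U * 2 ^ N := Nat.le_mul_of_pos_left _ hU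
      omega
    rw [← Pool.Agent.Helper48.BK.dyadic_Vau F U N]
    have e2 : ∑ u ∈ Ioc 0 y, F u = ∑ u ∈ Ioc 0 (U * 2 ^ N), F u := by
      apply Finset.sum_subset (Finset.Ioc_subset_Ioc_right hyN)
      intro u hm hu
      apply h2
      by_contra hc
      exact hu (mem_Ioc.2 ⟨(mem_Ioc.1 hm).1, by omega⟩)
    have e3 : ∑ u ∈ Ioc U (U * 2 ^ N), F u = ∑ u ∈ Ioc 0 (U * 2 ^ N), F u := by
      apply Finset.sum_subset (Finset.Ioc_subset_Ioc_left (Nat.zero_le _))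
      intro u hm hu
      apply h1
      by_contra hc
      exact hu (mem_Ioc.2 ⟨by omega, (mem_Ioc.1 hm).2⟩)
    rw [e2, e3]
  rw [key U hU (fun a => ∑ b ∈ Ioc 0 y, ((f a : ℝ) : ℂ) * ((g b : ℝ) : ℂ) * Gb y D l t (a * b))]
  · rw [Finset.sum_product]
    refine Finset.sum_congr rfl fun i _ => ?_
    unfold Pb
    rw [Finset.sum_comm (s := range N) (t := Ioc (U * 2 ^ i) (2 * (U * 2 ^ i)))]
    refine Finset.sum_congr rfl fun u hu => ?_
    have hu1 : 1 ≤ u := by have := (mem_Ioc.1 hu).1; omega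
    rw [key V hV (fun b => ((f u : ℝ) : ℂ) * ((g b : ℝ) : ℂ) * Gb y D l t (u * b))]
    · intro n hn
      rw [hg n hn]
      simp
    · intro n hn
      rw [Gb0, mul_zero]
      exact hn.trans_le (Nat.le_mul_of_pos_left _ hu1)
  · intro n hn
    refine Finset.sum_eq_zero fun b _ => ?_
    rw [hf n hn]
    simp
  · intro n hn
    refine Finset.sum_eq_zero fun b hb => ?_
    rw [Gb0, mul_zero]
    exact hn.trans_le (Nat.le_mul_of_pos_right _ (mem_Ioc.1 hb).1)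

theorem hMBL (hTU2 : StTU2) : StMBL := by
  obtain ⟨C2, hC2, hII⟩ := hTU2
  refine ⟨26244 * C2, by positivity, ?_⟩
  intro M D v U W y h θ f g A hM hD hDM hU hW hvM hy hθ hA hf0 hg0 hf hg
  have hL := Pool.Agent.Helper48.BK.log3_Vau hM
  have hv1 : 1 ≤ v := hθ.1
  have hMr : (3 : ℝ) ≤ M := by exact_mod_cast hM
  have hDr : (1 : ℝ) ≤ D := by exact_mod_cast hD
  have hM0 : (0 : ℝ) < M := by linarith
  have hD0 : (0 : ℝ) < D := by linarith
  have hx : 3 ≤ D * M := hM.trans (Nat.le_mul_of_pos_left M hD)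
  have hDW : 1 ≤ D * W := Nat.one_le_iff_ne_zero.2 (by positivity)
  set L := Real.log M with hLdef
  have hlogDM : Real.log ((D * M : ℕ) : ℝ) ≤ 3 * L := by
    push_cast
    rw [Real.log_mul (by positivity) (by positivity)]
    have h1 : Real.log D ≤ Real.log ((M : ℝ) ^ 2) :=
      Real.log_le_log hD0 (by exact_mod_cast hDM)
    rw [Real.log_pow] at h1
    push_cast at h1
    linarith
  set t : ℝ := θ / D with ht
  set F : ℝ := 1 / v + 1 / U + 1 / W + v / M with hF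
  have hF0 : 0 ≤ F := by positivity
  set N := Nat.log 2 (D * M) + 1 with hN
  have hN1 : y < 2 ^ N := lt_of_le_of_lt hy (Nat.lt_pow_succ_log_self (by norm_num) _)
  have hNr : (N : ℝ) ≤ 9 * L := by
    have := Pool.Agent.Helper48.BK.K_Vau hx
    have h9 : (3 : ℝ) * Real.log ((D * M : ℕ) : ℝ) ≤ 9 * L := by linarith
    exact this.trans h9
  set S : ℕ → ℂ := fun l => ∑ k ∈ Ioc 0 y, ∑ m ∈ Ioc 0 (y / k),
      if k * m ≡ l [MOD D] then ((f k * g m : ℝ) : ℂ) * ex (k * m * t) else 0 with hS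
  have hdec : ∀ l, S l = ∑ p ∈ range N ×ˢ range N,
      Pb y D l t f g (U * 2 ^ p.1) (D * W * 2 ^ p.2) := by
    intro l
    rw [← dec_MBL y D l U (D * W) N t f g hU hDW hf0 hg0 hN1]
    simp only [hS]
    refine Finset.sum_congr rfl fun k hk => ?_
    exact (restrict_MBL y D l t g (f k) k (mem_Ioc.1 hk).1).symm
  have hblk : ∀ p ∈ range N ×ˢ range N, D * ∑ l ∈ Un D, ‖Pb y D l t f g
        (U * 2 ^ p.1) (D * W * 2 ^ p.2)‖ ^ 2 ≤
      4 * C2 * A ^ 2 * ((D : ℝ) * M) ^ 2 * F * L := by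
    intro p _
    exact block_MBL C2 hC2 hII M D v U W y _ _ h θ hM hD hU hW hvM hy hθ f g A hA hf hg
      (Nat.le_mul_of_pos_right _ (by positivity)) (Nat.le_mul_of_pos_right _ (by positivity))
  have hcs : ∀ l, ‖S l‖ ^ 2 ≤ ((N : ℝ) ^ 2) * ∑ p ∈ range N ×ˢ range N, ‖Pb y D l t f g
        (U * 2 ^ p.1) (D * W * 2 ^ p.2)‖ ^ 2 := by
    intro l
    rw [hdec l]
    calc ‖∑ p ∈ range N ×ˢ range N, Pb y D l t f g (U * 2 ^ p.1) (D * W * 2 ^ p.2)‖ ^ 2
        ≤ (∑ p ∈ range N ×ˢ range N, ‖Pb y D l t f g (U * 2 ^ p.1) (D * W * 2 ^ p.2)‖) ^ 2 :=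
          pow_le_pow_left₀ (norm_nonneg _) (norm_sum_le _ _) 2
      _ ≤ (#(range N ×ˢ range N) : ℝ) * ∑ p ∈ range N ×ˢ range N, ‖Pb y D l t f g
          (U * 2 ^ p.1) (D * W * 2 ^ p.2)‖ ^ 2 := sq_sum_le_card_mul_sum_sq
      _ = _ := by
          rw [card_product, card_range]
          push_cast
          ring
  calc (D : ℝ) * ∑ l ∈ Un D, ‖S l‖ ^ 2
      ≤ D * ∑ l ∈ Un D, ((N : ℝ) ^ 2) * ∑ p ∈ range N ×ˢ range N, ‖Pb y D l t f g
        (U * 2 ^ p.1) (D * W * 2 ^ p.2)‖ ^ 2 := by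
        refine mul_le_mul_of_nonneg_left ?_ hD0.le
        exact Finset.sum_le_sum fun l _ => hcs l
    _ = (N : ℝ) ^ 2 * ∑ p ∈ range N ×ˢ range N, D * ∑ l ∈ Un D, ‖Pb y D l t f g
        (U * 2 ^ p.1) (D * W * 2 ^ p.2)‖ ^ 2 := by
        rw [← Finset.mul_sum, ← Finset.mul_sum, Finset.sum_comm]
        ring
    _ ≤ (N : ℝ) ^ 2 * ∑ p ∈ range N ×ˢ range N,
        4 * C2 * A ^ 2 * ((D : ℝ) * M) ^ 2 * F * L := by
        refine mul_le_mul_of_nonneg_left ?_ (by positivity)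
        exact Finset.sum_le_sum hblk
    _ = (N : ℝ) ^ 4 * (4 * C2 * A ^ 2 * ((D : ℝ) * M) ^ 2 * F * L) := by
        rw [Finset.sum_const, nsmul_eq_mul, card_product, card_range]
        push_cast
        ring
    _ ≤ (9 * L) ^ 4 * (4 * C2 * A ^ 2 * ((D : ℝ) * M) ^ 2 * F * L) := by
        have h4 : (N : ℝ) ^ 4 ≤ (9 * L) ^ 4 := pow_le_pow_left₀ (Nat.cast_nonneg N) hNr 4
        refine mul_le_mul_of_nonneg_right h4 ?_
        have : 0 ≤ L := by linarith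
        positivity
    _ = 26244 * C2 * A ^ 2 * ((D : ℝ) * M) ^ 2 * L ^ 5 * F := by ring

end Pool.Agent.Helper61.E3
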